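import Mathlib

open Set Filter Topology

namespace Pool.Agent.Helper62.NumIndex

variable {X : Type*} [NormedAddCommGroup X] [NormedSpace ℝ X]

/-- `x₀` lies in a slice of the unit ball all of whose points are within `ε` of `x₀`. -/
def SmallSlice (ε : ℝ) (x₀ : X) : Prop :=
  ‖x₀‖ ≤ 1 ∧ ∃ (f : StrongDual ℝ X) (α : ℝ), α < f x₀ ∧ ∀ x, ‖x‖ ≤ 1 → α < f x → ‖x - x₀‖ ≤ ε

/-- rank-one form of numerical index one -/
def RankOneProp (X : Type*) [NormedAddCommGroup X] [NormedSpace ℝ X] : Prop :=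
  ∀ (g : StrongDual ℝ X) (z : X), ‖g‖ = 1 → ‖z‖ = 1 → ∀ η : ℝ, 0 < η →
    ∃ (x : X) (f : StrongDual ℝ X), ‖x‖ = 1 ∧ ‖f‖ = 1 ∧ f x = 1 ∧ 1 - η < |g x| * |f z|

theorem exists_sign (a : ℝ) : ∃ s : ℝ, |s| = 1 ∧ s * a = |a| := by
  rcases le_total 0 a with h | h
  · exact ⟨1, by simp, by rw [abs_of_nonneg h, one_mul]⟩
  · exact ⟨-1, by simp, by rw [abs_of_nonpos h]; ring⟩

theorem adp_step (hX : RankOneProp X) {ε : ℝ} (hε : 0 < ε) (hε1 : ε < 1) {x₀ : X}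
    (hx₀ : SmallSlice ε x₀) {z : X} (hz : ‖z‖ = 1) {β : ℝ} (hβ : 0 < β) :
    ∃ (z' : X) (β' : ℝ), ‖z'‖ = 1 ∧ 0 < β' ∧ ∀ u : StrongDual ℝ X, ‖u‖ ≤ 1 → 1 - β' < u z' →
      1 - β < u z ∧ 1 - 2 * ε ≤ |u x₀| := by
  obtain ⟨hx₀1, f, α, hα, hf⟩ := hx₀
  -- f ≠ 0
  have hf0 : 0 < ‖f‖ := by
    rw [norm_pos_iff]
    rintro rfl
    have h1 := hf z hz.le (by simpa using hα)
    have h2 := hf (-z) (by rw [norm_neg]; exact hz.le) (by simpa using hα)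
    have h3 : ‖(2:ℝ) • z‖ ≤ 2 * ε := by
      have : (2:ℝ) • z = (z - x₀) - (-z - x₀) := by rw [two_smul]; abel
      rw [this]
      calc _ ≤ ‖z - x₀‖ + ‖-z - x₀‖ := norm_sub_le _ _
        _ ≤ ε + ε := add_le_add h1 h2
        _ = 2 * ε := by ring
    rw [norm_smul, hz] at h3
    norm_num at h3
    linarith
  have hαf : α < ‖f‖ := by
    calc α < f x₀ := hα
      _ ≤ ‖f x₀‖ := le_abs_self _
      _ ≤ ‖f‖ * ‖x₀‖ := f.le_opNorm _
      _ ≤ ‖f‖ * 1 := by gcongr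
      _ = ‖f‖ := mul_one _
  set g : StrongDual ℝ X := ‖f‖⁻¹ • f with hg
  have hg1 : ‖g‖ = 1 := by
    rw [hg, norm_smul, norm_inv, norm_norm, inv_mul_cancel₀ hf0.ne']
  obtain ⟨η, hη0, hη1, hη2, hη3, hη4⟩ : ∃ η : ℝ, 0 < η ∧ η ≤ β / 2 ∧ η ≤ ε / 2 ∧ η < 1 ∧
      α < (1 - η) * ‖f‖ := by
    refine ⟨min (min (β/2) (ε/2)) ((‖f‖ - α)/(2*‖f‖)), ?_, ?_, ?_, ?_, ?_⟩
    · apply lt_min (lt_min (by linarith) (by linarith))
      apply div_pos (by linarith) (by linarith)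
    · exact (min_le_left _ _).trans (min_le_left _ _)
    · exact (min_le_left _ _).trans (min_le_right _ _)
    · exact lt_of_le_of_lt ((min_le_left _ _).trans (min_le_right _ _)) (by linarith)
    · have h1 : min (min (β/2) (ε/2)) ((‖f‖ - α)/(2*‖f‖)) * ‖f‖ ≤ (‖f‖ - α)/2 := by
        calc _ ≤ ((‖f‖ - α)/(2*‖f‖)) * ‖f‖ := by gcongr; exact min_le_right _ _
          _ = (‖f‖ - α)/2 := by field_simp
      nlinarith
  obtain ⟨x, p, hx1, hp1, hpx, hgp⟩ := hX g z hg1 hz η hη0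
  have hgx : |g x| ≤ 1 := by
    have := g.le_opNorm x
    rw [hg1, hx1] at this
    simpa using this
  have hpz : |p z| ≤ 1 := by
    have := p.le_opNorm z
    rw [hp1, hz] at this
    simpa using this
  have hgx' : 1 - η < |g x| := by nlinarith [abs_nonneg (g x), abs_nonneg (p z)]
  have hpz' : 1 - η < |p z| := by nlinarith [abs_nonneg (g x), abs_nonneg (p z)]
  obtain ⟨σ, hσ1, hσ⟩ := exists_sign (g x)
  obtain ⟨τ, hτ1, hτ⟩ := exists_sign (p z)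
  have hττ : τ * τ = 1 := by rw [← sq, ← sq_abs, hτ1]; norm_num
  -- σ x is in the slice
  have hσx : ‖σ • x - x₀‖ ≤ ε := by
    apply hf
    · rw [norm_smul, Real.norm_eq_abs, hσ1, hx1]; norm_num
    · have h1 : f (σ • x) = ‖f‖ * |g x| := by
        rw [← hσ, hg]
        simp only [map_smul, smul_eq_mul, smul_apply]
        field_simp
      rw [h1]
      calc α < (1 - η) * ‖f‖ := hη4
        _ = ‖f‖ * (1 - η) := by ring
        _ ≤ ‖f‖ * |g x| := by gcongr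
  set w : X := z + τ • x with hw
  have hwnorm : 2 - η < ‖w‖ := by
    have h1 : τ * p w = |p z| + 1 := by
      rw [hw, map_add, map_smul, smul_eq_mul, hpx, ← hτ]
      linear_combination hττ
    have h2 : τ * p w ≤ ‖w‖ := by
      calc τ * p w ≤ |τ * p w| := le_abs_self _
        _ = |p w| := by rw [abs_mul, hτ1, one_mul]
        _ ≤ ‖p‖ * ‖w‖ := p.le_opNorm w
        _ = ‖w‖ := by rw [hp1, one_mul]
    linarith
  have hw0 : 0 < ‖w‖ := by linarith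
  refine ⟨‖w‖⁻¹ • w, η / 2, ?_, by linarith, ?_⟩
  · rw [norm_smul, norm_inv, norm_norm, inv_mul_cancel₀ hw0.ne']
  intro u hu hu'
  have h1 : (1 - η/2) * ‖w‖ < u w := by
    rw [map_smul, smul_eq_mul, inv_mul_eq_div, lt_div_iff₀ hw0] at hu'
    exact hu'
  have h2 : 2 - 2 * η < u w := by
    have : (1 - η/2) * (2 - η) ≤ (1 - η/2) * ‖w‖ := by gcongr; linarith
    nlinarith
  have huz : u z ≤ 1 := by
    calc u z ≤ ‖u z‖ := le_abs_self _
      _ ≤ ‖u‖ * ‖z‖ := u.le_opNorm z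
      _ ≤ 1 := by rw [hz]; linarith
  have hux : |u x| ≤ 1 := by
    calc |u x| = ‖u x‖ := rfl
      _ ≤ ‖u‖ * ‖x‖ := u.le_opNorm x
      _ ≤ 1 := by rw [hx1]; linarith
  have huw : u w = u z + τ * u x := by rw [hw, map_add, map_smul, smul_eq_mul]
  have hτux : τ * u x ≤ 1 := by
    calc τ * u x ≤ |τ * u x| := le_abs_self _
      _ = |u x| := by rw [abs_mul, hτ1, one_mul]
      _ ≤ 1 := hux
  constructor
  · linarith
  · have h3 : 1 - 2 * η < |u x| := by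
      calc 1 - 2 * η < τ * u x := by linarith
        _ ≤ |τ * u x| := le_abs_self _
        _ = |u x| := by rw [abs_mul, hτ1, one_mul]
    have h4 : |u x| = |u (σ • x)| := by rw [map_smul, smul_eq_mul, abs_mul, hσ1, one_mul]
    have h5 : |u (σ • x - x₀)| ≤ ε := by
      calc |u (σ • x - x₀)| = ‖u (σ • x - x₀)‖ := rfl
        _ ≤ ‖u‖ * ‖σ • x - x₀‖ := u.le_opNorm _
        _ ≤ 1 * ε := by gcongr
        _ = ε := one_mul _
    have h6 : |u (σ • x)| ≤ |u x₀| + |u (σ • x - x₀)| := by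
      have : u (σ • x) = u x₀ + u (σ • x - x₀) := by rw [← map_add]; congr 1; abel
      rw [this]
      exact abs_add_le _ _
    linarith

theorem adp_chain (hX : RankOneProp X) {ε : ℝ} (hε : 0 < ε) (hε1 : ε < 1) {ι : Type*}
    (x : ι → X) (s : Finset ι) (hx : ∀ i ∈ s, SmallSlice ε (x i)) :
    ∀ {z : X} (_ : ‖z‖ = 1) {β : ℝ} (_ : 0 < β),
    ∃ (z' : X) (β' : ℝ), ‖z'‖ = 1 ∧ 0 < β' ∧ ∀ u : StrongDual ℝ X, ‖u‖ ≤ 1 → 1 - β' < u z' →
      1 - β < u z ∧ ∀ i ∈ s, 1 - 2 * ε ≤ |u (x i)| := by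
  classical
  induction s using Finset.induction_on with
  | empty =>
    intro z hz β hβ
    exact ⟨z, β, hz, hβ, fun u _ h => ⟨h, by simp⟩⟩
  | insert a s ha ih =>
    intro z hz β hβ
    obtain ⟨z₁, β₁, hz₁, hβ₁, h₁⟩ := adp_step hX hε hε1 (hx a (Finset.mem_insert_self _ _)) hz hβ
    obtain ⟨z₂, β₂, hz₂, hβ₂, h₂⟩ := ih (fun i hi => hx i (Finset.mem_insert_of_mem hi)) hz₁ hβ₁
    refine ⟨z₂, β₂, hz₂, hβ₂, fun u hu hu' => ?_⟩
    obtain ⟨h3, h4⟩ := h₂ u hu hu'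
    obtain ⟨h5, h6⟩ := h₁ u hu h3
    refine ⟨h5, fun i hi => ?_⟩
    rcases Finset.mem_insert.1 hi with rfl | hi
    · exact h6
    · exact h4 i hi

/-- Almost norming functionals that are almost unimodular at all chosen points. -/
theorem exists_functional (hX : RankOneProp X) {ε : ℝ} (hε : 0 < ε) (hε1 : ε < 1) {ι : Type*}
    (x : ι → X) (s : Finset ι) (hx : ∀ i ∈ s, SmallSlice ε (x i)) (z : X) (hz : z ≠ 0) :
    ∃ u : StrongDual ℝ X, ‖u‖ ≤ 1 ∧ ‖z‖ - 1 ≤ u z ∧ ∀ i ∈ s, 1 - 2 * ε ≤ |u (x i)| := by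
  have hz0 : 0 < ‖z‖ := norm_pos_iff.2 hz
  have h1 : ‖(‖z‖⁻¹ • z)‖ = 1 := by rw [norm_smul, norm_inv, norm_norm, inv_mul_cancel₀ hz0.ne']
  obtain ⟨z', β', hz', hβ', h⟩ := adp_chain hX hε hε1 x s hx h1 (β := ‖z‖⁻¹) (by positivity)
  obtain ⟨u, hu1, hu2⟩ := exists_dual_vector ℝ z' (by rw [hz']; norm_num)
  obtain ⟨h3, h4⟩ := h u hu1.le (by rw [hu2, hz']; simp; linarith)
  refine ⟨u, hu1.le, ?_, h4⟩
  rw [map_smul, smul_eq_mul, inv_mul_eq_div, lt_div_iff₀ hz0, sub_mul, inv_mul_cancel₀ hz0.ne'] at h3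
  linarith

end Pool.Agent.Helper62.NumIndex
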