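import Mathlib
import Pool.Agent.Helper62.NumIndex.Adp

open Set Filter Topology

namespace Pool.Agent.Helper62.NumIndex

variable {X : Type*} [NormedAddCommGroup X] [NormedSpace ℝ X]

theorem exists_le_one_lt_apply (f : StrongDual ℝ X) {a : ℝ} (ha : a < ‖f‖) :
    ∃ x : X, ‖x‖ ≤ 1 ∧ a < f x := by
  obtain ⟨x, hx, hfx⟩ := f.exists_lt_apply_of_lt_opNorm ha
  obtain ⟨s, hs1, hs⟩ := exists_sign (f x)
  refine ⟨s • x, ?_, ?_⟩
  · rw [norm_smul, Real.norm_eq_abs, hs1, one_mul]
    exact hx.le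
  · rw [map_smul, smul_eq_mul, hs]
    exact hfx

/-- points of the convex hull of a set of small diameter are close to each other -/
theorem dist_convexHull_le {D : Set X} {ε : ℝ} (hD : ∀ x ∈ D, ∀ y ∈ D, ‖x - y‖ ≤ ε) :
    ∀ x ∈ convexHull ℝ D, ∀ y ∈ convexHull ℝ D, ‖x - y‖ ≤ ε := by
  have h1 : ∀ x ∈ D, ∀ y ∈ convexHull ℝ D, ‖x - y‖ ≤ ε := by
    intro x hx y hy
    have : convexHull ℝ D ⊆ Metric.closedBall x ε := by
      apply convexHull_min _ (convex_closedBall x ε)
      intro d hd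
      rw [mem_closedBall_iff_norm]
      exact hD d hd x hx
    have h := this hy
    rw [mem_closedBall_iff_norm, norm_sub_rev] at h
    exact h
  intro x hx y hy
  have : convexHull ℝ D ⊆ Metric.closedBall y ε := by
    apply convexHull_min _ (convex_closedBall y ε)
    intro d hd
    rw [mem_closedBall_iff_norm]
    exact h1 d hd y hy
  have h := this hx
  rwa [mem_closedBall_iff_norm] at h

theorem exists_smallSlice_of_cover {ε : ℝ} (hε : 0 < ε) (D : ℕ → Set X)
    (hD : ∀ i, ∀ x ∈ D i, ∀ y ∈ D i, ‖x - y‖ ≤ ε) (n : ℕ) :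
    ∀ C : Set X, IsClosed C → Convex ℝ C → C.Nonempty → C ⊆ Metric.closedBall (0:X) 1 →
      (∃ x, ‖x‖ ≤ 1 ∧ x ∉ C) → (∀ x, ‖x‖ ≤ 1 → x ∉ C → ∃ i < n, x ∈ D i) →
      ∃ x₀, x₀ ∉ C ∧ SmallSlice (2 * ε) x₀ := by
  induction n with
  | zero =>
    intro C _ _ _ _ ⟨x, hx, hxC⟩ hcov
    obtain ⟨i, hi, _⟩ := hcov x hx hxC
    omega
  | succ n ih =>
    intro C hCcl hCcv hCne hCB hne hcov
    set D' : Set X := D n ∩ Metric.closedBall (0:X) 1 with hD'
    set C' : Set X := closure (convexHull ℝ (C ∪ D')) with hC'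
    have hCC' : C ⊆ C' := (subset_union_left.trans (subset_convexHull ℝ _)).trans subset_closure
    have hDC' : D' ⊆ C' := (subset_union_right.trans (subset_convexHull ℝ _)).trans subset_closure
    have hC'B : C' ⊆ Metric.closedBall (0:X) 1 := by
      apply closure_minimal _ Metric.isClosed_closedBall
      apply convexHull_min _ (convex_closedBall _ _)
      exact union_subset hCB inter_subset_right
    by_cases hC'ne : ∃ x, ‖x‖ ≤ 1 ∧ x ∉ C'
    · obtain ⟨x₀, hx₀, hs⟩ := ih C' isClosed_closure (convex_convexHull ℝ _).closure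
        (hCne.mono hCC') hC'B hC'ne (by
          intro x hx hxC'
          obtain ⟨i, hi, hxi⟩ := hcov x hx (fun h => hxC' (hCC' h))
          refine ⟨i, ?_, hxi⟩
          rcases Nat.lt_succ_iff_lt_or_eq.1 hi with h | h
          · exact h
          · exfalso
            subst h
            exact hxC' (hDC' ⟨hxi, by simpa using hx⟩))
      exact ⟨x₀, fun h => hx₀ (hCC' h), hs⟩
    · push Not at hC'ne
      obtain ⟨x₁, hx₁, hx₁C⟩ := hne
      -- D' nonempty
      have hD'ne : D'.Nonempty := by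
        by_contra hemp
        rw [Set.not_nonempty_iff_eq_empty] at hemp
        have : C' = C := by
          rw [hC', hemp, union_empty, hCcv.convexHull_eq, hCcl.closure_eq]
        exact hx₁C (this ▸ hC'ne x₁ hx₁)
      obtain ⟨f, u, hfu, hux₁⟩ := geometric_hahn_banach_closed_point hCcv hCcl hx₁C
      have hus : u < ‖f‖ := by
        calc u < f x₁ := hux₁
          _ ≤ ‖f x₁‖ := le_abs_self _
          _ ≤ ‖f‖ * ‖x₁‖ := f.le_opNorm _
          _ ≤ ‖f‖ * 1 := by gcongr
          _ = ‖f‖ := mul_one _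
      set κ : ℝ := min (ε / 6) 1 with hκ
      have hκ0 : 0 < κ := lt_min (by linarith) one_pos
      have hκ1 : κ ≤ 1 := min_le_right _ _
      have hκε : κ ≤ ε / 6 := min_le_left _ _
      set α : ℝ := ‖f‖ - κ * (‖f‖ - u) with hα
      have hαf : α < ‖f‖ := by
        have : 0 < κ * (‖f‖ - u) := mul_pos hκ0 (by linarith)
        linarith
      have huα : u ≤ α := by
        have : κ * (‖f‖ - u) ≤ 1 * (‖f‖ - u) := by
          apply mul_le_mul_of_nonneg_right hκ1; linarith
        linarith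
      obtain ⟨x₀, hx₀, hfx₀⟩ := exists_le_one_lt_apply f hαf
      have hx₀C : x₀ ∉ C := fun h => by have := hfu x₀ h; linarith
      have hconv : convexHull ℝ (C ∪ D') = convexJoin ℝ C (convexHull ℝ D') := by
        rw [← hCcv.convexHull_union (convex_convexHull ℝ D') hCne hD'ne.convexHull]
        apply subset_antisymm
        · exact convexHull_mono (union_subset_union_right _ (subset_convexHull ℝ _))
        · apply convexHull_min _ (convex_convexHull ℝ _)
          apply union_subset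
          · exact subset_union_left.trans (subset_convexHull ℝ _)
          · exact convexHull_mono subset_union_right
      have hDball : convexHull ℝ D' ⊆ Metric.closedBall (0:X) 1 :=
        convexHull_min inter_subset_right (convex_closedBall _ _)
      have key : ∀ x, ‖x‖ ≤ 1 → α < f x → ∃ d ∈ convexHull ℝ D', ‖x - d‖ ≤ 3 * κ := by
        intro x hx hfx
        have hxC' : x ∈ closure (convexHull ℝ (C ∪ D')) := hC'ne x hx
        rw [Metric.mem_closure_iff] at hxC'
        set ρ : ℝ := min κ ((f x - α) / (‖f‖ + 1)) with hρ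
        have hf1 : 0 < ‖f‖ + 1 := by positivity
        have hρ0 : 0 < ρ := lt_min hκ0 (div_pos (by linarith) hf1)
        obtain ⟨x', hx', hxx'⟩ := hxC' ρ hρ0
        rw [dist_eq_norm] at hxx'
        have hfx' : α < f x' := by
          have h1 : |f (x - x')| ≤ ‖f‖ * ‖x - x'‖ := f.le_opNorm _
          have h2 : f (x - x') ≤ ‖f‖ * ρ := by
            calc f (x - x') ≤ |f (x - x')| := le_abs_self _
              _ ≤ ‖f‖ * ‖x - x'‖ := h1
              _ ≤ ‖f‖ * ρ := by gcongr
          have h3 : ‖f‖ * ρ < f x - α := by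
            calc ‖f‖ * ρ < (‖f‖ + 1) * ρ := by nlinarith
              _ ≤ (‖f‖ + 1) * ((f x - α) / (‖f‖ + 1)) := by gcongr; exact min_le_right _ _
              _ = f x - α := by field_simp
          rw [map_sub] at h2
          linarith
        rw [hconv, mem_convexJoin] at hx'
        obtain ⟨c, hc, d, hd, hx'seg⟩ := hx'
        obtain ⟨a, b, ha, hb, hab, hx'eq⟩ := hx'seg
        refine ⟨d, hd, ?_⟩
        have hfd : f d ≤ ‖f‖ := by
          have hd1 : ‖d‖ ≤ 1 := by simpa using hDball hd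
          calc f d ≤ ‖f d‖ := le_abs_self _
            _ ≤ ‖f‖ * ‖d‖ := f.le_opNorm _
            _ ≤ ‖f‖ * 1 := by gcongr
            _ = ‖f‖ := mul_one _
        have haκ : a ≤ κ := by
          have h1 : f x' = a * f c + b * f d := by
            rw [← hx'eq, map_add, map_smul, map_smul, smul_eq_mul, smul_eq_mul]
          have h2 : f x' ≤ a * u + b * ‖f‖ := by
            rw [h1]
            have := (hfu c hc).le
            gcongr
          have h3 : b = 1 - a := by linarith
          rw [h3] at h2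
          by_contra hcon
          push Not at hcon
          have : κ * (‖f‖ - u) < a * (‖f‖ - u) := by
            apply mul_lt_mul_of_pos_right hcon; linarith
          nlinarith
        have hx'd : ‖x' - d‖ ≤ 2 * κ := by
          have h1 : x' - d = a • (c - d) := by
            rw [← hx'eq, smul_sub]
            have h3 : b = 1 - a := by linarith
            rw [h3, sub_smul, one_smul]
            abel
          rw [h1, norm_smul, Real.norm_eq_abs, abs_of_nonneg ha]
          have hc1 : ‖c‖ ≤ 1 := by simpa using hCB hc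
          have hd1 : ‖d‖ ≤ 1 := by simpa using hDball hd
          calc a * ‖c - d‖ ≤ a * (‖c‖ + ‖d‖) := by gcongr; exact norm_sub_le _ _
            _ ≤ κ * (1 + 1) := by gcongr
            _ = 2 * κ := by ring
        calc ‖x - d‖ = ‖(x - x') + (x' - d)‖ := by congr 1; abel
          _ ≤ ‖x - x'‖ + ‖x' - d‖ := norm_add_le _ _
          _ ≤ κ + 2 * κ := by
            gcongr
            exact hxx'.le.trans (min_le_left _ _)
          _ = 3 * κ := by ring
      refine ⟨x₀, hx₀C, hx₀, f, α, hfx₀, fun x hx hfx => ?_⟩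
      obtain ⟨d, hd, hxd⟩ := key x hx hfx
      obtain ⟨d₀, hd₀, hxd₀⟩ := key x₀ hx₀ hfx₀
      have hdd : ‖d - d₀‖ ≤ ε := dist_convexHull_le
        (fun x hx y hy => hD n x hx.1 y hy.1) d hd d₀ hd₀
      calc ‖x - x₀‖ = ‖(x - d) + (d - d₀) - (x₀ - d₀)‖ := by congr 1; abel
        _ ≤ ‖(x - d) + (d - d₀)‖ + ‖x₀ - d₀‖ := norm_sub_le _ _
        _ ≤ ‖x - d‖ + ‖d - d₀‖ + ‖x₀ - d₀‖ := by gcongr; exact norm_add_le _ _
        _ ≤ 3 * κ + ε + 3 * κ := by gcongr
        _ ≤ 2 * ε := by linarith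

/-- A nonempty slice covered by finitely many small sets contains a small slice. -/
theorem exists_smallSlice_of_slice {ε : ℝ} (hε : 0 < ε) (f : StrongDual ℝ X) (α : ℝ)
    (h0 : f 0 ≤ α) (hne : ∃ x, ‖x‖ ≤ 1 ∧ α < f x) {t : Set X} (ht : t.Finite)
    (hcov : ∀ x, ‖x‖ ≤ 1 → α < f x → ∃ c ∈ t, ‖x - c‖ ≤ ε) :
    ∃ x₀, α < f x₀ ∧ SmallSlice (4 * ε) x₀ := by
  classical
  obtain ⟨l, hl⟩ : ∃ l : List X, ∀ x, x ∈ l ↔ x ∈ t := ⟨ht.toFinset.toList, by simp⟩
  let D : ℕ → Set X := fun i => {x | ∃ h : i < l.length, ‖x - l[i]‖ ≤ ε}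
  have hD : ∀ i, ∀ x ∈ D i, ∀ y ∈ D i, ‖x - y‖ ≤ 2 * ε := by
    rintro i x ⟨h, hx⟩ y ⟨h', hy⟩
    calc ‖x - y‖ = ‖(x - l[i]) - (y - l[i])‖ := by congr 1; abel
      _ ≤ ‖x - l[i]‖ + ‖y - l[i]‖ := norm_sub_le _ _
      _ ≤ 2 * ε := by linarith
  let C : Set X := {x | ‖x‖ ≤ 1 ∧ f x ≤ α}
  have hC1 : C = Metric.closedBall (0:X) 1 ∩ {x | f x ≤ α} := by
    ext x; simp [C]
  have hCcl : IsClosed C := by
    rw [hC1]
    exact Metric.isClosed_closedBall.inter (isClosed_le f.continuous continuous_const)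
  have hCcv : Convex ℝ C := by
    rw [hC1]
    exact (convex_closedBall _ _).inter (convex_halfSpace_le f.toLinearMap.isLinear α)
  obtain ⟨x₀, hx₀, hs⟩ := exists_smallSlice_of_cover (ε := 2 * ε) (by linarith) D hD l.length C
    hCcl hCcv ⟨0, by simp, h0⟩ (by rw [hC1]; exact inter_subset_left)
    (by
      obtain ⟨x, hx, hfx⟩ := hne
      exact ⟨x, hx, fun h => absurd h.2 (not_le.2 hfx)⟩)
    (by
      intro x hx hxC
      have hfx : α < f x := by
        by_contra hcon
        exact hxC ⟨hx, not_lt.1 hcon⟩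
      obtain ⟨c, hc, hxc⟩ := hcov x hx hfx
      obtain ⟨i, hi, hic⟩ := List.getElem_of_mem ((hl c).2 hc)
      exact ⟨i, hi, hi, by rw [hic]; exact hxc⟩)
  refine ⟨x₀, ?_, by convert hs using 1; ring⟩
  by_contra hcon
  exact hx₀ ⟨hs.1, not_lt.1 hcon⟩

end Pool.Agent.Helper62.NumIndex
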