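import Mathlib
import Pool.Agent.Helper62.NumIndex.Slices

open Set Filter Topology

namespace Pool.Agent.Helper62.NumIndex

/-- the space `ℓ₁` -/
abbrev L1 : Type := lp (fun _ : ℕ => ℝ) 1

theorem L1.hasSum_norm (y : L1) : HasSum (fun k => |y k|) ‖y‖ := by
  have := lp.hasSum_norm (p := 1) (by simp) y
  simpa using this

theorem L1.norm_sub_sum (y : L1) (F : Finset ℕ) :
    ‖y - ∑ k ∈ F, lp.single 1 k (y k)‖ = ‖y‖ - ∑ k ∈ F, |y k| := by
  have := lp.norm_compl_sum_single (p := 1) (by simp) y F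
  simpa using this

theorem L1.sum_le_norm (y : L1) (F : Finset ℕ) : ∑ k ∈ F, |y k| ≤ ‖y‖ := by
  have h := L1.norm_sub_sum y F
  have h2 := norm_nonneg (y - ∑ k ∈ F, lp.single 1 k (y k))
  linarith

/-- finitely supported sign functional -/
noncomputable def phiF (F : Finset ℕ) (s : ℕ → ℝ) : L1 →L[ℝ] ℝ :=
  ∑ k ∈ F, s k • lp.evalCLM ℝ (fun _ : ℕ => ℝ) 1 k

theorem phiF_apply (F : Finset ℕ) (s : ℕ → ℝ) (y : L1) : phiF F s y = ∑ k ∈ F, s k * y k := by
  unfold phiF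
  rw [sum_apply]
  rfl

theorem phiF_le (F : Finset ℕ) (s : ℕ → ℝ) (hs : ∀ k, |s k| = 1) (y : L1) :
    phiF F s y ≤ ∑ k ∈ F, |y k| := by
  rw [phiF_apply]
  apply Finset.sum_le_sum
  intro k _
  calc s k * y k ≤ |s k * y k| := le_abs_self _
    _ = |y k| := by rw [abs_mul, hs, one_mul]

variable {X : Type*} [NormedAddCommGroup X] [NormedSpace ℝ X]
variable {H : Type*} [NormedAddCommGroup H] [InnerProductSpace ℝ H]

theorem num_aux1 {s κ r a n C₂ δ R : ℝ} (hs : 0 < s) (ha : a ≤ C₂) (hR : s * (r + κ) ≤ R)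
    (hN : R - δ < a + s * n) (hδ : δ ≤ 1) (hs2 : 1 + C₂ ≤ s * r / 4) : κ + 3 * r / 4 < n := by
  have h8 : s * (κ + 3 * r / 4) < s * n := by linarith
  exact lt_of_mul_lt_mul_left h8 hs.le

theorem num_aux2 {κ r b i C₂ : ℝ} (hκ : 0 < κ) (hb : b^2 ≤ C₂^2)
    (hκ2 : C₂^2 ≤ κ * r / 2) (h : (κ + 3 * r / 4)^2 < b^2 + 2 * κ * i + κ^2) : r / 2 < i := by
  have h9 : 0 ≤ r^2 := sq_nonneg r
  have h11 : κ * r < 2 * κ * i := by
    have : (κ + 3 * r / 4)^2 = κ^2 + 3/2 * (κ * r) + 9/16 * r^2 := by ring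
    linarith
  have h12 : κ * (r / 2) < κ * i := by linarith
  exact lt_of_mul_lt_mul_left h12 hκ.le

theorem num_aux3 {s φy ny nv iv sF δ R : ℝ} (hs1 : 1 ≤ s) (h4 : R - δ < φy + s * iv)
    (h5 : iv ≤ nv) (h6 : φy ≤ sF) (h7 : sF ≤ ny) (h8 : ny + s * nv ≤ R) :
    ny - sF < δ ∧ nv - iv < δ ∧ R - δ < ny + s * nv := by
  have h10 : s * iv ≤ s * nv := by gcongr
  have h11 : s * (nv - iv) < δ := by rw [mul_sub]; linarith
  have h12 : nv - iv ≤ s * (nv - iv) := by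
    have : 0 ≤ nv - iv := by linarith
    nlinarith
  exact ⟨by linarith, by linarith, by linarith⟩

theorem exists_smallSlice_dir (e : X ≃L[ℝ] (L1 × H)) {C₁ C₂ : ℝ} (hC₁ : 0 < C₁)
    (h1 : ∀ p, ‖e.symm p‖ ≤ C₁ * ‖p‖) (hC₂ : 0 < C₂) (h2 : ∀ x, ‖e x‖ ≤ C₂ * ‖x‖)
    (u : H) (hu : ‖u‖ = 1) {ε : ℝ} (hε : 0 < ε) :
    ∃ x₀ : X, SmallSlice ε x₀ ∧ 1 / (2 * C₁) ≤ inner ℝ (e x₀).2 u := by
  set r : ℝ := 1 / C₁ with hr
  have hr0 : 0 < r := by positivity
  set s : ℝ := max 1 (4 * (1 + C₂) / r) with hs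
  have hs1 : 1 ≤ s := le_max_left _ _
  have hs0 : 0 < s := by linarith
  have hs2 : 1 + C₂ ≤ s * r / 4 := by
    have : 4 * (1 + C₂) / r ≤ s := le_max_right _ _
    rw [div_le_iff₀ hr0] at this
    linarith
  set κ : ℝ := max (C₂ + 1) (2 * C₂^2 / r) with hκ
  have hκ1 : C₂ + 1 ≤ κ := le_max_left _ _
  have hκ0 : 0 < κ := by linarith
  have hκ2 : C₂^2 ≤ κ * r / 2 := by
    have : 2 * C₂^2 / r ≤ κ := le_max_right _ _
    rw [div_le_iff₀ hr0] at this
    linarith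
  -- accuracy
  set ε' : ℝ := ε / (8 * C₁) with hε'
  have hε'0 : 0 < ε' := by positivity
  obtain ⟨δ, hδ0, hδ1, hδ2, hδ3⟩ : ∃ δ : ℝ, 0 < δ ∧ δ ≤ 1 ∧ δ ≤ ε' ∧
      2 * (C₂ + κ) * δ ≤ ε'^2 := by
    refine ⟨min (min 1 ε') (ε'^2 / (2 * (C₂ + κ))), ?_, ?_, ?_, ?_⟩
    · apply lt_min (lt_min one_pos hε'0)
      positivity
    · exact (min_le_left _ _).trans (min_le_left _ _)
    · exact (min_le_left _ _).trans (min_le_right _ _)
    · calc 2 * (C₂ + κ) * _ ≤ 2 * (C₂ + κ) * (ε'^2 / (2 * (C₂ + κ))) := by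
            gcongr; exact min_le_right _ _
        _ = ε'^2 := by field_simp
  -- the auxiliary gauge
  let N : X → ℝ := fun x => ‖(e x).1‖ + s * ‖(e x).2 + κ • u‖
  have hfst : ∀ x : X, ‖x‖ ≤ 1 → ‖(e x).1‖ ≤ C₂ := fun x hx => by
    calc ‖(e x).1‖ ≤ ‖e x‖ := norm_fst_le _
      _ ≤ C₂ * ‖x‖ := h2 x
      _ ≤ C₂ * 1 := by gcongr
      _ = C₂ := mul_one _
  have hsnd : ∀ x : X, ‖x‖ ≤ 1 → ‖(e x).2‖ ≤ C₂ := fun x hx => by
    calc ‖(e x).2‖ ≤ ‖e x‖ := norm_snd_le _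
      _ ≤ C₂ * ‖x‖ := h2 x
      _ ≤ C₂ * 1 := by gcongr
      _ = C₂ := mul_one _
  have hκu : ‖κ • u‖ = κ := by rw [norm_smul, hu, mul_one, Real.norm_of_nonneg hκ0.le]
  have hsndκ : ∀ x : X, ‖x‖ ≤ 1 → ‖(e x).2 + κ • u‖ ≤ C₂ + κ := fun x hx => by
    calc _ ≤ ‖(e x).2‖ + ‖κ • u‖ := norm_add_le _ _
      _ ≤ C₂ + κ := by rw [hκu]; linarith [hsnd x hx]
  let S : Set ℝ := {t | ∃ x : X, ‖x‖ ≤ 1 ∧ t = N x}
  have hSbdd : BddAbove S := by
    refine ⟨C₂ + s * (C₂ + κ), ?_⟩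
    rintro t ⟨x, hx, rfl⟩
    have := hsndκ x hx
    exact add_le_add (hfst x hx) (by gcongr)
  have hSne : S.Nonempty := ⟨N 0, 0, by simp, rfl⟩
  set R : ℝ := sSup S with hR
  have hNR : ∀ x : X, ‖x‖ ≤ 1 → N x ≤ R := fun x hx => le_csSup hSbdd ⟨x, hx, rfl⟩
  obtain ⟨t, ⟨x₀, hx₀, rfl⟩, hNx₀⟩ := exists_lt_of_lt_csSup hSne (show R - δ / 2 < R by linarith)
  -- the supporting functional
  set v₀ : H := (e x₀).2 + κ • u with hv₀
  have hv₀0 : 0 < ‖v₀‖ := by
    have h3 : κ - C₂ ≤ ‖v₀‖ := by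
      have := norm_sub_norm_le (κ • u) (-(e x₀).2)
      rw [norm_neg, sub_neg_eq_add, hκu, add_comm (κ • u)] at this
      linarith [hsnd x₀ hx₀]
    linarith
  set z : H := ‖v₀‖⁻¹ • v₀ with hz
  have hz1 : ‖z‖ = 1 := by rw [hz, norm_smul, norm_inv, norm_norm, inv_mul_cancel₀ hv₀0.ne']
  have hzv₀ : inner ℝ z v₀ = ‖v₀‖ := by
    rw [hz, real_inner_smul_left, real_inner_self_eq_norm_sq]
    field_simp
  choose sg hsg1 hsg using fun k : ℕ => exists_sign ((e x₀).1 k)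
  obtain ⟨F, hF⟩ : ∃ F : Finset ℕ, ‖(e x₀).1‖ - δ/2 < ∑ k ∈ F, |(e x₀).1 k| := by
    have := (L1.hasSum_norm (e x₀).1)
    exact (this.eventually (lt_mem_nhds (show ‖(e x₀).1‖ - δ/2 < ‖(e x₀).1‖ by linarith))).exists
  set φ : L1 →L[ℝ] ℝ := phiF F sg with hφ
  have hφle : ∀ y, φ y ≤ ∑ k ∈ F, |y k| := phiF_le F sg hsg1
  have hφ₀ : φ (e x₀).1 = ∑ k ∈ F, |(e x₀).1 k| := by
    rw [hφ, phiF_apply]
    exact Finset.sum_congr rfl fun k _ => hsg k
  set f : StrongDual ℝ X := (φ.comp (ContinuousLinearMap.fst ℝ L1 H)).comp (e : X →L[ℝ] L1 × H) +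
    s • ((innerSL ℝ z).comp (ContinuousLinearMap.snd ℝ L1 H)).comp (e : X →L[ℝ] L1 × H) with hf
  have hfx : ∀ x, f x = φ (e x).1 + s * inner ℝ z (e x).2 := fun x => rfl
  set α : ℝ := R - δ - s * κ * inner ℝ z u with hα
  have hfx₀ : α < f x₀ := by
    have h3 : inner ℝ z (e x₀).2 + κ * inner ℝ z u = ‖v₀‖ := by
      rw [← hzv₀, hv₀, inner_add_right, real_inner_smul_right]
    have h4 : R - δ/2 < ‖(e x₀).1‖ + s * ‖v₀‖ := hNx₀
    rw [hfx, hφ₀, hα]
    have h5 : s * (inner ℝ z (e x₀).2 + κ * inner ℝ z u) = s * ‖v₀‖ := by rw [h3]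
    linarith
  -- facts on the slice
  have hslice : ∀ x : X, ‖x‖ ≤ 1 → α < f x →
      ‖(e x).1‖ - ∑ k ∈ F, |(e x).1 k| < δ ∧
      ‖(e x).2 + κ • u‖ - inner ℝ z ((e x).2 + κ • u) < δ ∧ R - δ < N x := by
    intro x hx hαx
    rw [hfx, hα] at hαx
    have h3 : inner ℝ z ((e x).2 + κ • u) = inner ℝ z (e x).2 + κ * inner ℝ z u := by
      rw [inner_add_right, real_inner_smul_right]
    have h4 : R - δ < φ (e x).1 + s * inner ℝ z ((e x).2 + κ • u) := by
      rw [h3]; linarith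
    have h5 : inner ℝ z ((e x).2 + κ • u) ≤ ‖(e x).2 + κ • u‖ := by
      have := real_inner_le_norm z ((e x).2 + κ • u)
      rwa [hz1, one_mul] at this
    exact num_aux3 hs1 h4 h5 (hφle (e x).1) (L1.sum_le_norm (e x).1 F) (hNR x hx)
  -- location of the slice
  have hloc : ∀ x : X, ‖x‖ ≤ 1 → α < f x → 1 / (2 * C₁) ≤ inner ℝ (e x).2 u := by
    intro x hx hαx
    obtain ⟨-, -, h3⟩ := hslice x hx hαx
    have h4 : N (e.symm (0, r • u)) ≤ R := by
      apply hNR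
      calc _ ≤ C₁ * ‖((0 : L1), r • u)‖ := h1 _
        _ = C₁ * r := by
          congr 1
          rw [Prod.norm_mk, norm_zero, norm_smul, hu, mul_one, Real.norm_of_nonneg hr0.le]
          exact max_eq_right hr0.le
        _ = 1 := by rw [hr]; field_simp
        _ ≤ 1 := le_rfl
    have h5 : N (e.symm (0, r • u)) = s * (r + κ) := by
      simp only [N, ContinuousLinearEquiv.apply_symm_apply, norm_zero, zero_add]
      rw [← add_smul, norm_smul, hu, mul_one, Real.norm_of_nonneg (by positivity)]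
    have h7 : κ + 3 * r / 4 < ‖(e x).2 + κ • u‖ :=
      num_aux1 hs0 (hfst x hx) (h5 ▸ h4) h3 hδ1 hs2
    have h8 : ‖(e x).2 + κ • u‖^2 = ‖(e x).2‖^2 + 2 * κ * inner ℝ (e x).2 u + κ^2 := by
      rw [norm_add_sq_real, real_inner_smul_right, hκu]
      ring
    have h9 : (κ + 3 * r / 4)^2 < ‖(e x).2 + κ • u‖^2 := by
      apply pow_lt_pow_left₀ h7 (by positivity) (by norm_num)
    have h10 : ‖(e x).2‖^2 ≤ C₂^2 := by
      have := hsnd x hx
      gcongr
    have h12 : r / 2 < inner ℝ (e x).2 u := num_aux2 hκ0 h10 hκ2 (h8 ▸ h9)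
    have h13 : 1 / (2 * C₁) = r / 2 := by rw [hr]; field_simp
    rw [h13]
    exact h12.le
  have hα0 : f 0 ≤ α := by
    by_contra hcon
    push Not at hcon
    have := hloc 0 (by simp) hcon
    rw [map_zero] at this
    simp only [Prod.snd_zero, inner_zero_left] at this
    have h3 : 0 < 1 / (2 * C₁) := by positivity
    linarith
  -- covering by finitely many balls
  let W : Submodule ℝ (L1 × H) := Submodule.span ℝ
    (((fun k : ℕ => ((lp.single 1 k (1:ℝ) : L1), (0 : H))) '' (F : Set ℕ)) ∪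
      {((0 : L1), z), ((0 : L1), u)})
  have hWfin : FiniteDimensional ℝ W := by
    apply FiniteDimensional.span_of_finite
    exact (F.finite_toSet.image _).union (by simp)
  have hWk : ∀ k ∈ F, ((lp.single 1 k (1:ℝ) : L1), (0 : H)) ∈ W := fun k hk =>
    Submodule.subset_span (Or.inl ⟨k, hk, rfl⟩)
  have hWz : ((0 : L1), z) ∈ W := Submodule.subset_span (Or.inr (by simp))
  have hWu : ((0 : L1), u) ∈ W := Submodule.subset_span (Or.inr (by simp))
  have : ProperSpace W := FiniteDimensional.proper ℝ W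
  let K : Set (L1 × H) := Subtype.val '' (Metric.closedBall (0 : W) (C₂ + ε'))
  have hK : IsCompact K := (isCompact_closedBall _ _).image continuous_subtype_val
  obtain ⟨t, htK, htfin, htcov⟩ := hK.finite_cover_balls hε'0
  obtain ⟨x₁, hx₁, hs₁⟩ := exists_smallSlice_of_slice (ε := ε / 4) (by linarith) f α hα0
    ⟨x₀, hx₀, hfx₀⟩ (t := e.symm '' t) (htfin.image _) (by
      intro x hx hαx
      obtain ⟨h3, h4, -⟩ := hslice x hx hαx
      set y := (e x).1 with hy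
      set h := (e x).2 with hh
      let p : L1 × H := (∑ k ∈ F, lp.single 1 k (y k), ‖h + κ • u‖ • z - κ • u)
      have hpW : p ∈ W := by
        have : p = (∑ k ∈ F, (y k) • ((lp.single 1 k (1:ℝ) : L1), (0 : H))) +
            (‖h + κ • u‖ • ((0 : L1), z) - κ • ((0 : L1), u)) := by
          apply Prod.ext
          · simp only [p, Prod.fst_add, Prod.fst_sum, Prod.smul_fst, Prod.fst_sub, smul_zero,
              sub_zero, add_zero]
            refine Finset.sum_congr rfl fun k _ => ?_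
            rw [← lp.single_smul]
            simp
          · simp [p, Prod.snd_sum]
        rw [this]
        exact W.add_mem (W.sum_mem fun k hk => W.smul_mem _ (hWk k hk))
          (W.sub_mem (W.smul_mem _ hWz) (W.smul_mem _ hWu))
      have hep : ‖e x - p‖ ≤ ε' := by
        rw [Prod.norm_def]
        apply max_le
        · show ‖y - ∑ k ∈ F, lp.single 1 k (y k)‖ ≤ ε'
          rw [L1.norm_sub_sum]
          linarith
        · show ‖h - (‖h + κ • u‖ • z - κ • u)‖ ≤ ε'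
          have h5 : h - (‖h + κ • u‖ • z - κ • u) = (h + κ • u) - ‖h + κ • u‖ • z := by abel
          rw [h5]
          have h6 : ‖(h + κ • u) - ‖h + κ • u‖ • z‖^2 =
              2 * ‖h + κ • u‖ * (‖h + κ • u‖ - inner ℝ z (h + κ • u)) := by
            rw [norm_sub_sq_real, real_inner_smul_right, norm_smul, hz1, mul_one, norm_norm,
              real_inner_comm]
            ring
          have h7 : ‖(h + κ • u) - ‖h + κ • u‖ • z‖^2 ≤ ε'^2 := by
            rw [h6]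
            have h8 : ‖h + κ • u‖ ≤ C₂ + κ := hsndκ x hx
            have h9 : 0 ≤ ‖h + κ • u‖ - inner ℝ z (h + κ • u) := by
              have := real_inner_le_norm z (h + κ • u)
              rw [hz1, one_mul] at this
              linarith
            calc 2 * ‖h + κ • u‖ * (‖h + κ • u‖ - inner ℝ z (h + κ • u))
                ≤ 2 * (C₂ + κ) * δ := by gcongr
              _ ≤ ε'^2 := hδ3
          exact le_of_sq_le_sq h7 hε'0.le
      have hpn : ‖p‖ ≤ C₂ + ε' := by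
        have h5 : ‖e x‖ ≤ C₂ := by
          calc ‖e x‖ ≤ C₂ * ‖x‖ := h2 x
            _ ≤ C₂ * 1 := by gcongr
            _ = C₂ := mul_one _
        have h6 : p = e x - (e x - p) := by abel
        rw [h6]
        exact (norm_sub_le _ _).trans (add_le_add h5 hep)
      have hpK : p ∈ K := ⟨⟨p, hpW⟩, by simpa using hpn, rfl⟩
      obtain ⟨c, hc, hpc⟩ := mem_iUnion₂.1 (htcov hpK)
      refine ⟨e.symm c, ⟨c, hc, rfl⟩, ?_⟩
      rw [mem_ball_iff_norm] at hpc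
      have h5 : x - e.symm c = e.symm (e x - c) := by
        rw [map_sub, ContinuousLinearEquiv.symm_apply_apply]
      rw [h5]
      have h6 : ‖e x - c‖ ≤ 2 * ε' := by
        calc ‖e x - c‖ = ‖(e x - p) + (p - c)‖ := by congr 1; abel
          _ ≤ ‖e x - p‖ + ‖p - c‖ := norm_add_le _ _
          _ ≤ 2 * ε' := by linarith
      calc _ ≤ C₁ * ‖e x - c‖ := h1 _
        _ ≤ C₁ * (2 * ε') := by gcongr
        _ = ε / 4 := by rw [hε']; field_simp; norm_num)
  refine ⟨x₁, by convert hs₁ using 1; ring, hloc x₁ hs₁.1 hx₁⟩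

end Pool.Agent.Helper62.NumIndex
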