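import Mathlib
import Pool.Agent.Helper62.NumIndex.Direction

open Set Filter Topology

namespace Pool.Agent.Helper62.NumIndex

section gram
variable {H : Type*} [NormedAddCommGroup H] [InnerProductSpace ℝ H]

theorem gram_bound {ι : Type*} (s : Finset ι) (v : ι → H) (a : ι → ℝ) {η : ℝ} (hη : 0 ≤ η)
    (h : ∀ i ∈ s, ∀ j ∈ s, i ≠ j → |inner ℝ (v i) (v j)| ≤ η) :
    |‖∑ i ∈ s, a i • v i‖^2 - ∑ i ∈ s, (a i)^2 * ‖v i‖^2| ≤ η * s.card * ∑ i ∈ s, (a i)^2 := by
  classical
  have h1 : ‖∑ i ∈ s, a i • v i‖^2 = ∑ i ∈ s, ∑ j ∈ s, a i * a j * inner ℝ (v i) (v j) := by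
    rw [← real_inner_self_eq_norm_sq, sum_inner]
    refine Finset.sum_congr rfl fun i _ => ?_
    rw [inner_sum]
    refine Finset.sum_congr rfl fun j _ => ?_
    rw [real_inner_smul_left, real_inner_smul_right]
    ring
  have h2 : ∑ i ∈ s, (a i)^2 * ‖v i‖^2 =
      ∑ i ∈ s, ∑ j ∈ s, (if i = j then a i * a j * inner ℝ (v i) (v j) else 0) := by
    refine Finset.sum_congr rfl fun i hi => ?_
    rw [Finset.sum_ite_eq s i, if_pos hi, real_inner_self_eq_norm_sq]
    ring
  have h3 : ‖∑ i ∈ s, a i • v i‖^2 - ∑ i ∈ s, (a i)^2 * ‖v i‖^2 =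
      ∑ i ∈ s, ∑ j ∈ s, (if i = j then 0 else a i * a j * inner ℝ (v i) (v j)) := by
    rw [h1, h2, ← Finset.sum_sub_distrib]
    refine Finset.sum_congr rfl fun i _ => ?_
    rw [← Finset.sum_sub_distrib]
    refine Finset.sum_congr rfl fun j _ => ?_
    split_ifs <;> ring
  rw [h3]
  calc |∑ i ∈ s, ∑ j ∈ s, (if i = j then 0 else a i * a j * inner ℝ (v i) (v j))|
      ≤ ∑ i ∈ s, ∑ j ∈ s, |if i = j then 0 else a i * a j * inner ℝ (v i) (v j)| := by
        refine (Finset.abs_sum_le_sum_abs _ _).trans (Finset.sum_le_sum fun i _ => ?_)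
        exact Finset.abs_sum_le_sum_abs _ _
    _ ≤ ∑ i ∈ s, ∑ j ∈ s, η * (|a i| * |a j|) := by
        refine Finset.sum_le_sum fun i hi => Finset.sum_le_sum fun j hj => ?_
        split_ifs with hij
        · rw [abs_zero]; positivity
        · rw [abs_mul, abs_mul, mul_comm]
          exact mul_le_mul_of_nonneg_right (h i hi j hj hij) (by positivity)
    _ = η * (∑ i ∈ s, |a i|)^2 := by
        rw [sq, Finset.sum_mul_sum, Finset.mul_sum]
        refine Finset.sum_congr rfl fun i _ => ?_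
        rw [Finset.mul_sum]
    _ ≤ η * (s.card * ∑ i ∈ s, |a i|^2) := by
        gcongr
        exact sq_sum_le_card_mul_sum_sq
    _ = η * s.card * ∑ i ∈ s, (a i)^2 := by
        simp only [sq_abs]; ring

end gram

section weak
variable {H : Type*} [NormedAddCommGroup H] [InnerProductSpace ℝ H] [CompleteSpace H]

/-- bounded families in a Hilbert space converge weakly along ultrafilters -/
theorem exists_weak_limit {ι : Type*} (U : Ultrafilter ι) (h : ι → H) {ρ : ℝ}
    (hρ : ∀ i, ‖h i‖ ≤ ρ) : ∃ w : H, ‖w‖ ≤ ρ ∧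
      ∀ g : H, Tendsto (fun i => inner ℝ (h i) g) U (𝓝 (inner ℝ w g)) := by
  let F : ι → WeakDual ℝ H := fun i => StrongDual.toWeakDual (InnerProductSpace.toDual ℝ H (h i))
  have hK := WeakDual.isCompact_closedBall (𝕜 := ℝ) (E := H) 0 ρ
  have hUK : (U.map F : Filter (WeakDual ℝ H)) ≤
      𝓟 (WeakDual.toStrongDual ⁻¹' Metric.closedBall (0 : StrongDual ℝ H) ρ) := by
    rw [le_principal_iff, Ultrafilter.mem_coe, Ultrafilter.mem_map]
    refine Filter.mem_of_superset Filter.univ_mem fun i _ => ?_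
    show F i ∈ WeakDual.toStrongDual ⁻¹' Metric.closedBall (0 : StrongDual ℝ H) ρ
    rw [mem_preimage, mem_closedBall_zero_iff]
    show ‖InnerProductSpace.toDual ℝ H (h i)‖ ≤ ρ
    rw [LinearIsometryEquiv.norm_map]
    exact hρ i
  obtain ⟨L, hL, hUL⟩ := hK.ultrafilter_le_nhds _ hUK
  refine ⟨(InnerProductSpace.toDual ℝ H).symm (WeakDual.toStrongDual L), ?_, fun g => ?_⟩
  · rw [LinearIsometryEquiv.norm_map]
    rw [mem_preimage, mem_closedBall_zero_iff] at hL
    exact hL
  · rw [InnerProductSpace.toDual_symm_apply]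
    have h1 : Tendsto F U (𝓝 L) := hUL
    have h2 : Tendsto (fun i => F i g) U (𝓝 (L g)) :=
      ((WeakDual.eval_continuous g).tendsto L).comp h1
    exact h2

/-- an infinite family of bounded vectors with a definite component along an orthonormal family
contains an almost orthogonal sequence after subtracting a fixed vector -/
theorem exists_almost_orthogonal {I : Type*} [Infinite I] {b : I → H} (hb : Orthonormal ℝ b)
    (h : I → H) {ρ r : ℝ} (hr : 0 < r) (hρ : ∀ i, ‖h i‖ ≤ ρ) (hbr : ∀ i, r ≤ inner ℝ (h i) (b i))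
    {η : ℝ} (hη : 0 < η) :
    ∃ (w : H) (f : ℕ → I), ‖w‖ ≤ ρ ∧ (∀ n, r / 2 ≤ ‖h (f n) - w‖) ∧
      ∀ m n, m ≠ n → |inner ℝ (h (f m) - w) (h (f n) - w)| ≤ η := by
  let U : Ultrafilter I := hyperfilter I
  obtain ⟨w, hw, hlim⟩ := exists_weak_limit U h hρ
  have hlim' : ∀ g : H, Tendsto (fun i => inner ℝ (h i - w) g) U (𝓝 0) := by
    intro g
    have := (hlim g).sub_const (inner ℝ w g)
    rw [sub_self] at this
    refine this.congr fun i => ?_
    rw [inner_sub_left]
  -- lower bound, eventually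
  have hlow : ∀ᶠ i in (U : Filter I), r / 2 ≤ ‖h i - w‖ := by
    have h1 : Tendsto (fun i => ‖inner ℝ (b i) w‖^2) cofinite (𝓝 0) :=
      (hb.inner_products_summable w).tendsto_cofinite_zero
    have h2 : ∀ᶠ i in cofinite, ‖inner ℝ (b i) w‖^2 < (r/2)^2 :=
      h1.eventually (gt_mem_nhds (by positivity))
    have h3 : ∀ᶠ i in (U : Filter I), ‖inner ℝ (b i) w‖^2 < (r/2)^2 :=
      hyperfilter_le_cofinite h2
    filter_upwards [h3] with i hi
    have h4 : ‖inner ℝ (b i) w‖ < r/2 := lt_of_pow_lt_pow_left₀ 2 (by positivity) hi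
    have h5 : inner ℝ w (b i) < r/2 := by
      rw [real_inner_comm]
      exact lt_of_le_of_lt (le_abs_self _) h4
    have h6 : r/2 ≤ inner ℝ (h i - w) (b i) := by
      rw [inner_sub_left]
      linarith [hbr i]
    calc r/2 ≤ inner ℝ (h i - w) (b i) := h6
      _ ≤ ‖h i - w‖ * ‖b i‖ := real_inner_le_norm _ _
      _ = ‖h i - w‖ := by rw [hb.1 i, mul_one]
  let R : I → I → Prop := fun i j => i ≠ j ∧ |inner ℝ (h i - w) (h j - w)| ≤ η
  have hRs : Std.Symm R := ⟨fun i j hij => ⟨hij.1.symm, by rw [real_inner_comm]; exact hij.2⟩⟩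
  obtain ⟨f, hf1, hf2⟩ := exists_seq_of_forall_finset_exists' (fun i => r / 2 ≤ ‖h i - w‖) R (by
    intro s _
    have h1 : ∀ i ∈ s, ∀ᶠ j in (U : Filter I), R i j := by
      intro i _
      have h2 : ∀ᶠ j in (U : Filter I), |inner ℝ (h j - w) (h i - w)| < η := by
        have := (hlim' (h i - w)).abs
        rw [abs_zero] at this
        exact this.eventually (gt_mem_nhds hη)
      have h3 : ∀ᶠ j in (U : Filter I), i ≠ j := by
        have h4 : ∀ᶠ j in (cofinite : Filter I), i ≠ j := by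
          rw [eventually_cofinite]
          exact (finite_singleton i).subset fun j hj => by
            simp only [ne_eq, not_not, mem_ofPred_eq] at hj
            simp [hj]
        exact hyperfilter_le_cofinite h4
      filter_upwards [h2, h3] with j hj hij
      exact ⟨hij, by rw [real_inner_comm]; exact hj.le⟩
    have h2 : ∀ᶠ j in (U : Filter I), ∀ i ∈ s, R i j := (Filter.eventually_all_finset s).2 h1
    obtain ⟨j, hj⟩ := (hlow.and h2).exists
    exact ⟨j, hj⟩)
  exact ⟨w, f, hw, hf1, fun m n hmn => (hf2 hmn).2⟩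

end weak

end Pool.Agent.Helper62.NumIndex
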