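import Mathlib
import Pool.Agent.Helper62.NumIndex.Hilbert

open Set Filter Topology

namespace Pool.Agent.Helper62.NumIndex

theorem separable_L1 : TopologicalSpace.SeparableSpace L1 := by
  rw [← TopologicalSpace.isSeparable_univ_iff]
  have h1 : TopologicalSpace.IsSeparable
      (closure (Submodule.span ℝ (range fun k : ℕ => (lp.single 1 k (1:ℝ) : L1)) : Set L1)) :=
    ((countable_range _).isSeparable.span).closure
  refine h1.mono fun y _ => ?_
  have h2 : HasSum (fun k : ℕ => (lp.single 1 k (y k) : L1)) y :=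
    lp.hasSum_single (by simp) y
  refine mem_closure_of_tendsto h2 (Eventually.of_forall fun F => ?_)
  refine Submodule.sum_mem _ fun k _ => ?_
  have h3 : (lp.single 1 k (y k) : L1) = (y k) • (lp.single 1 k (1:ℝ) : L1) := by
    rw [← lp.single_smul]; simp
  rw [h3]
  exact Submodule.smul_mem _ _ (Submodule.subset_span ⟨k, rfl⟩)

/-- pigeonhole: an uncountable family in `ℓ₁` has an infinite subfamily of small diameter -/
theorem exists_infinite_close {Γ : Type*} [Uncountable Γ] (y : Γ → L1) {η : ℝ} (hη : 0 < η) :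
    ∃ I : Set Γ, I.Infinite ∧ ∀ i ∈ I, ∀ j ∈ I, ‖y i - y j‖ ≤ η := by
  have := separable_L1
  have hex : ∀ i, ∃ n : ℕ, dist (y i) (TopologicalSpace.denseSeq L1 n) < η / 2 := by
    intro i
    obtain ⟨n, hn⟩ := (Metric.denseRange_iff.1 (TopologicalSpace.denseRange_denseSeq L1)) (y i)
      (η / 2) (by linarith)
    exact ⟨n, hn⟩
  choose n hn using hex
  have : ∃ k : ℕ, (n ⁻¹' {k}).Infinite := by
    by_contra hcon
    push Not at hcon
    have h1 : (univ : Set Γ) = ⋃ k, n ⁻¹' {k} := by ext i; simp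
    have h2 : (univ : Set Γ).Countable := by
      rw [h1]
      exact countable_iUnion fun k => (Set.not_infinite.1 (by simpa using hcon k)).countable
    exact not_countable (α := Γ) (countable_univ_iff.1 h2)
  obtain ⟨k, hk⟩ := this
  refine ⟨n ⁻¹' {k}, hk, fun i hi j hj => ?_⟩
  have h1 := hn i
  have h2 := hn j
  rw [mem_preimage, mem_singleton_iff] at hi hj
  rw [hi] at h1
  rw [hj] at h2
  rw [← dist_eq_norm]
  calc dist (y i) (y j) ≤ dist (y i) (TopologicalSpace.denseSeq L1 k) +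
        dist (y j) (TopologicalSpace.denseSeq L1 k) := dist_triangle_right _ _ _
    _ ≤ η := by linarith

/-- scalar bookkeeping: signs of the values -/
theorem sign_count {ι : Type*} (s : Finset ι) (t a c : ι → ℝ) {M τ : ℝ} (hτ0 : 0 ≤ τ)
    (hτ : τ ≤ 1/4) (ht : ∀ i ∈ s, 1 - τ ≤ |t i|) (ht1 : ∀ i ∈ s, |t i| ≤ 1)
    (hta : ∀ i ∈ s, ∀ j ∈ s, (t i - t j) - (a i - a j) ≤ 1/4)
    (hc : ∀ i ∈ s, |c i| = 1) (hc0 : ∑ i ∈ s, c i = 0) (ha : ∑ i ∈ s, (a i)^2 ≤ M) :
    ∑ i ∈ s, c i * t i ≤ τ * s.card + 8 * M := by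
  classical
  set P := s.filter fun i => 0 < t i with hP
  set Q := s.filter fun i => ¬ 0 < t i with hQ
  have hPs : P ⊆ s := Finset.filter_subset _ _
  have hQs : Q ⊆ s := Finset.filter_subset _ _
  have htP : ∀ i ∈ P, 1 - τ ≤ t i := by
    intro i hi
    rw [hP, Finset.mem_filter] at hi
    have := ht i hi.1
    rwa [abs_of_pos hi.2] at this
  have htQ : ∀ i ∈ Q, t i ≤ -(1 - τ) := by
    intro i hi
    rw [hQ, Finset.mem_filter] at hi
    have := ht i hi.1
    rw [abs_of_nonpos (not_lt.1 hi.2)] at this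
    linarith
  -- cardinality bound for one of the two classes
  have hbound : ∀ A : Finset ι, A ⊆ s → (∀ i ∈ A, 1/4 ≤ (a i)^2) → (A.card : ℝ) ≤ 4 * M := by
    intro A hA hA2
    have h1 : ∑ i ∈ A, (1/4 : ℝ) ≤ ∑ i ∈ A, (a i)^2 := Finset.sum_le_sum hA2
    have h2 : ∑ i ∈ A, (a i)^2 ≤ ∑ i ∈ s, (a i)^2 :=
      Finset.sum_le_sum_of_subset_of_nonneg hA fun i _ _ => sq_nonneg _
    rw [Finset.sum_const, nsmul_eq_mul] at h1
    linarith
  have hPQ : (P.card : ℝ) ≤ 4 * M ∨ (Q.card : ℝ) ≤ 4 * M := by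
    by_cases hall : ∀ i ∈ P, 1/2 ≤ a i
    · left
      apply hbound P hPs
      intro i hi
      nlinarith [hall i hi]
    · right
      push Not at hall
      obtain ⟨i, hi, hai⟩ := hall
      apply hbound Q hQs
      intro j hj
      have h1 := hta i (hPs hi) j (hQs hj)
      have h2 := htP i hi
      have h3 := htQ j hj
      have h4 : a j ≤ -(1/2) := by linarith
      nlinarith
  have hsplit : ∀ g : ι → ℝ, ∑ i ∈ s, g i = ∑ i ∈ P, g i + ∑ i ∈ Q, g i := by
    intro g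
    rw [hP, hQ, Finset.sum_filter_add_sum_filter_not]
  have hcardPQ : (P.card : ℝ) + Q.card = s.card := by
    have : P.card + Q.card = s.card := by
      rw [hP, hQ]; exact Finset.card_filter_add_card_filter_not _
    exact_mod_cast this
  have hP0 : (0:ℝ) ≤ P.card := Nat.cast_nonneg _
  have hQ0 : (0:ℝ) ≤ Q.card := Nat.cast_nonneg _
  have hcle : ∀ i ∈ s, ∀ x : ℝ, c i * x ≤ |x| := by
    intro i hi x
    calc c i * x ≤ |c i * x| := le_abs_self _
      _ = |x| := by rw [abs_mul, hc i hi, one_mul]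
  rcases hPQ with h | h
  · have h1 : ∑ i ∈ s, c i * t i = ∑ i ∈ s, c i * (t i + 1) := by
      simp only [mul_add, mul_one, Finset.sum_add_distrib, hc0, add_zero]
    rw [h1, hsplit]
    have h2 : ∑ i ∈ P, c i * (t i + 1) ≤ ∑ i ∈ P, (2:ℝ) := by
      refine Finset.sum_le_sum fun i hi => (hcle i (hPs hi) _).trans ?_
      have h3 := htP i hi
      have h4 := ht1 i (hPs hi)
      have h5 := le_abs_self (t i)
      rw [abs_of_nonneg (by linarith)]
      linarith
    have h3 : ∑ i ∈ Q, c i * (t i + 1) ≤ ∑ i ∈ Q, τ := by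
      refine Finset.sum_le_sum fun i hi => (hcle i (hQs hi) _).trans ?_
      have h3 := htQ i hi
      have h4 := ht1 i (hQs hi)
      have h5 := neg_abs_le (t i)
      rw [abs_of_nonneg (by linarith)]
      linarith
    rw [Finset.sum_const, nsmul_eq_mul] at h2 h3
    have h4 : (Q.card : ℝ) * τ ≤ s.card * τ := by
      apply mul_le_mul_of_nonneg_right _ hτ0; linarith
    linarith
  · have h1 : ∑ i ∈ s, c i * t i = ∑ i ∈ s, c i * (t i - 1) := by
      simp only [mul_sub, mul_one, Finset.sum_sub_distrib, hc0, sub_zero]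
    rw [h1, hsplit]
    have h2 : ∑ i ∈ Q, c i * (t i - 1) ≤ ∑ i ∈ Q, (2:ℝ) := by
      refine Finset.sum_le_sum fun i hi => (hcle i (hQs hi) _).trans ?_
      have h3 := htQ i hi
      have h4 := ht1 i (hQs hi)
      have h5 := neg_abs_le (t i)
      rw [abs_of_nonpos (by linarith)]
      linarith
    have h3 : ∑ i ∈ P, c i * (t i - 1) ≤ ∑ i ∈ P, τ := by
      refine Finset.sum_le_sum fun i hi => (hcle i (hPs hi) _).trans ?_
      have h3 := htP i hi
      have h4 := ht1 i (hPs hi)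
      have h5 := le_abs_self (t i)
      rw [abs_of_nonpos (by linarith)]
      linarith
    rw [Finset.sum_const, nsmul_eq_mul] at h2 h3
    have h4 : (P.card : ℝ) * τ ≤ s.card * τ := by
      apply mul_le_mul_of_nonneg_right _ hτ0; linarith
    linarith

theorem sum_alternating (q : ℕ) : ∑ i ∈ Finset.range (2 * q), (-1 : ℝ)^i = 0 := by
  induction q with
  | zero => simp
  | succ q ih =>
    rw [show 2 * (q + 1) = 2 * q + 1 + 1 by ring, Finset.sum_range_succ, Finset.sum_range_succ, ih]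
    rw [pow_succ]
    ring

variable {X : Type*} [NormedAddCommGroup X] [NormedSpace ℝ X]
variable {H : Type*} [NormedAddCommGroup H] [InnerProductSpace ℝ H] [CompleteSpace H]

/-- No norm on `ℓ₁ × H`, `H` a Hilbert space with an uncountable orthonormal family, has the
rank-one property of spaces of numerical index one. -/
theorem not_rankOneProp {Γ : Type*} [Uncountable Γ] {b : Γ → H} (hb : Orthonormal ℝ b)
    (e : X ≃L[ℝ] (L1 × H)) : ¬ RankOneProp X := by
  intro hX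
  -- constants
  obtain ⟨C₁, hC₁, h1⟩ : ∃ C₁ : ℝ, 0 < C₁ ∧ ∀ p, ‖e.symm p‖ ≤ C₁ * ‖p‖ := by
    refine ⟨‖(e.symm : (L1 × H) →L[ℝ] X)‖ + 1, by positivity, fun p => ?_⟩
    calc ‖e.symm p‖ ≤ ‖(e.symm : (L1 × H) →L[ℝ] X)‖ * ‖p‖ :=
          (e.symm : (L1 × H) →L[ℝ] X).le_opNorm p
      _ ≤ _ := by gcongr; linarith
  obtain ⟨C₂, hC₂, h2⟩ : ∃ C₂ : ℝ, 0 < C₂ ∧ ∀ x, ‖e x‖ ≤ C₂ * ‖x‖ := by
    refine ⟨‖(e : X →L[ℝ] (L1 × H))‖ + 1, by positivity, fun p => ?_⟩
    calc ‖e p‖ ≤ ‖(e : X →L[ℝ] (L1 × H))‖ * ‖p‖ := (e : X →L[ℝ] (L1 × H)).le_opNorm p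
      _ ≤ _ := by gcongr; linarith
  set r : ℝ := 1 / (2 * C₁) with hr
  have hr0 : 0 < r := by positivity
  set M : ℝ := C₁^2 * (4 * C₂^2 + 1) with hM
  have hM0 : 0 < M := by positivity
  -- number of points
  obtain ⟨q, hq⟩ := exists_nat_gt ((3 * C₂ * (8 * M + 2) / r)^2)
  have hq0 : 0 < q := by
    rcases Nat.eq_zero_or_pos q with h | h
    · rw [h] at hq
      have : 0 ≤ (3 * C₂ * (8 * M + 2) / r)^2 := sq_nonneg _
      norm_num at hq
      linarith
    · exact h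
  set m : ℕ := 2 * q with hm
  have hm0 : (0:ℝ) < m := by rw [hm]; push_cast; positivity
  set ε : ℝ := 1 / (8 * m) with hε
  have hε0 : 0 < ε := by positivity
  have hm1 : (1:ℝ) ≤ m := by
    have : 1 ≤ m := by omega
    exact_mod_cast this
  have hε1 : ε ≤ 1/8 := by
    rw [hε]
    apply one_div_le_one_div_of_le (by norm_num)
    linarith
  set η : ℝ := 1 / (4 * C₁) with hη
  have hη0 : 0 < η := by positivity
  set η' : ℝ := min (1 / m) (r^2 / (8 * m)) with hη'
  have hη'0 : 0 < η' := by positivity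
  have hη'1 : η' * m ≤ 1 := by
    calc η' * m ≤ (1/m) * m := by gcongr; exact min_le_left _ _
      _ = 1 := by field_simp
  have hη'2 : η' * m ≤ r^2 / 8 := by
    calc η' * m ≤ (r^2 / (8 * m)) * m := by gcongr; exact min_le_right _ _
      _ = r^2 / 8 := by field_simp
  -- points in small slices
  have hpts : ∀ γ : Γ, ∃ x₀ : X, SmallSlice ε x₀ ∧ r ≤ inner ℝ (e x₀).2 (b γ) := fun γ =>
    exists_smallSlice_dir e hC₁ h1 hC₂ h2 (b γ) (hb.1 γ) hε0
  choose x hxs hxr using hpts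
  obtain ⟨I, hI, hIη⟩ := exists_infinite_close (fun γ => (e (x γ)).1) hη0
  have : Infinite I := hI.to_subtype
  have hbI : Orthonormal ℝ (fun i : I => b i) := hb.comp _ Subtype.val_injective
  have hbound : ∀ i : I, ‖(e (x i)).2‖ ≤ C₂ := fun i => by
    calc ‖(e (x i)).2‖ ≤ ‖e (x i)‖ := norm_snd_le _
      _ ≤ C₂ * ‖x i‖ := h2 _
      _ ≤ C₂ * 1 := by gcongr; exact (hxs i).1
      _ = C₂ := mul_one _
  obtain ⟨w, f, hw, hf1, hf2⟩ := exists_almost_orthogonal hbI (fun i : I => (e (x i)).2) hr0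
    hbound (fun i => hxr i) hη'0
  set X' : ℕ → X := fun n => x (f n) with hX'
  set v : ℕ → H := fun n => (e (X' n)).2 - w with hv
  have hv1 : ∀ n, r/2 ≤ ‖v n‖ := hf1
  have hv2 : ∀ m n, m ≠ n → |inner ℝ (v m) (v n)| ≤ η' := hf2
  have hv3 : ∀ n, ‖v n‖ ≤ 2 * C₂ := fun n => by
    calc ‖v n‖ ≤ ‖(e (X' n)).2‖ + ‖w‖ := norm_sub_le _ _
      _ ≤ 2 * C₂ := by linarith [hbound (f n)]
  set s : Finset ℕ := Finset.range m with hs
  have hscard : s.card = m := Finset.card_range m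
  set c : ℕ → ℝ := fun i => (-1)^i with hc
  have hcabs : ∀ i, |c i| = 1 := fun i => by simp [hc, abs_pow]
  have hcsq : ∀ i, (c i)^2 = 1 := fun i => by rw [← sq_abs, hcabs]; norm_num
  have hcsum : ∑ i ∈ s, c i = 0 := by rw [hs, hm]; exact sum_alternating q
  set z : X := ∑ i ∈ s, c i • X' i with hz
  -- lower bound of the norm of z
  have hez : (e z).2 = ∑ i ∈ s, c i • v i := by
    have h3 : (e z).2 = ∑ i ∈ s, c i • (e (X' i)).2 := by
      rw [hz, map_sum, Prod.snd_sum]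
      refine Finset.sum_congr rfl fun i _ => ?_
      rw [map_smul, Prod.smul_snd]
    rw [h3]
    have h4 : ∑ i ∈ s, c i • v i = ∑ i ∈ s, c i • (e (X' i)).2 - (∑ i ∈ s, c i) • w := by
      rw [Finset.sum_smul, ← Finset.sum_sub_distrib]
      refine Finset.sum_congr rfl fun i _ => ?_
      rw [hv, smul_sub]
    rw [h4, hcsum, zero_smul, sub_zero]
  have hgram := fun a : ℕ → ℝ => gram_bound s v a hη'0.le (fun i _ j _ hij => hv2 i j hij)
  have hlow : m * (r^2 / 8) ≤ ‖∑ i ∈ s, c i • v i‖^2 := by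
    have h3 := (abs_le.1 (hgram c)).1
    have h4 : ∑ i ∈ s, (c i)^2 * ‖v i‖^2 ≥ m * (r/2)^2 := by
      have : ∑ i ∈ s, (r/2)^2 ≤ ∑ i ∈ s, (c i)^2 * ‖v i‖^2 := by
        refine Finset.sum_le_sum fun i _ => ?_
        rw [hcsq, one_mul]
        have := hv1 i
        gcongr
      rw [Finset.sum_const, nsmul_eq_mul, hscard] at this
      exact this
    have h5 : ∑ i ∈ s, (c i)^2 = m := by
      simp [hcsq, hscard]
    rw [h5, hscard] at h3
    have h6 : η' * m * m ≤ r^2 / 8 * m := by gcongr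
    have h7 : (m:ℝ) * (r/2)^2 = 2 * (m * (r^2/8)) := by ring
    linarith
  have hzlow : 8 * M + 2 < ‖z‖ := by
    have h3 : ‖∑ i ∈ s, c i • v i‖ ≤ C₂ * ‖z‖ := by
      rw [← hez]
      exact (norm_snd_le _).trans (h2 z)
    by_contra hcon
    push Not at hcon
    have h4 : ‖∑ i ∈ s, c i • v i‖ ≤ C₂ * (8 * M + 2) := h3.trans (by gcongr)
    have h5 : ‖∑ i ∈ s, c i • v i‖^2 ≤ (C₂ * (8 * M + 2))^2 := by gcongr
    have h6 : (q:ℝ) * r^2 ≤ 4 * (C₂ * (8 * M + 2))^2 := by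
      have h7 : (m:ℝ) * (r^2/8) = q * r^2 / 4 := by rw [hm]; push_cast; ring
      rw [h7] at hlow
      linarith
    have h7 : (3 * C₂ * (8 * M + 2) / r)^2 * r^2 < q * r^2 := by gcongr
    have h8 : (3 * C₂ * (8 * M + 2) / r)^2 * r^2 = 9 * (C₂ * (8 * M + 2))^2 := by
      field_simp
      ring
    rw [h8] at h7
    have h9 : 0 < (C₂ * (8 * M + 2))^2 := by positivity
    linarith
  have hz0 : z ≠ 0 := by
    intro h0
    rw [h0, norm_zero] at hzlow
    linarith
  obtain ⟨u, hu1, hu2, hu3⟩ := exists_functional hX hε0 (by linarith) X' s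
    (fun i _ => hxs (f i)) z hz0
  -- the scalar data
  set a : ℕ → ℝ := fun i => u (e.symm (0, v i)) with ha
  set t : ℕ → ℝ := fun i => u (X' i) with ht
  have hut : ∀ y : X, |u y| ≤ ‖y‖ := fun y => by
    calc |u y| = ‖u y‖ := rfl
      _ ≤ ‖u‖ * ‖y‖ := u.le_opNorm y
      _ ≤ 1 * ‖y‖ := by gcongr
      _ = ‖y‖ := one_mul _
  have hasum : ∑ i ∈ s, (a i)^2 ≤ M := by
    have h3 : ∑ i ∈ s, (a i)^2 = u (e.symm (0, ∑ i ∈ s, a i • v i)) := by
      have h4 : ((0 : L1), ∑ i ∈ s, a i • v i) = ∑ i ∈ s, a i • ((0 : L1), v i) := by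
        apply Prod.ext
        · simp [Prod.fst_sum]
        · simp [Prod.snd_sum]
      rw [h4, map_sum, map_sum]
      refine Finset.sum_congr rfl fun i _ => ?_
      rw [map_smul, map_smul, smul_eq_mul, sq]
    have h5 : ∑ i ∈ s, (a i)^2 ≤ C₁ * ‖∑ i ∈ s, a i • v i‖ := by
      rw [h3]
      calc u (e.symm (0, ∑ i ∈ s, a i • v i)) ≤ |u (e.symm (0, ∑ i ∈ s, a i • v i))| :=
            le_abs_self _
        _ ≤ ‖e.symm ((0 : L1), ∑ i ∈ s, a i • v i)‖ := hut _
        _ ≤ C₁ * ‖((0 : L1), ∑ i ∈ s, a i • v i)‖ := h1 _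
        _ = C₁ * ‖∑ i ∈ s, a i • v i‖ := by
          rw [Prod.norm_mk, norm_zero, max_eq_right (norm_nonneg _)]
    have h6 : ‖∑ i ∈ s, a i • v i‖^2 ≤ (4 * C₂^2 + 1) * ∑ i ∈ s, (a i)^2 := by
      have h7 := (abs_le.1 (hgram a)).2
      have h8 : ∑ i ∈ s, (a i)^2 * ‖v i‖^2 ≤ ∑ i ∈ s, (a i)^2 * (2*C₂)^2 := by
        refine Finset.sum_le_sum fun i _ => ?_
        have := hv3 i
        gcongr
      rw [← Finset.sum_mul] at h8
      have h9 : η' * s.card * ∑ i ∈ s, (a i)^2 ≤ 1 * ∑ i ∈ s, (a i)^2 := by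
        rw [hscard]
        have : 0 ≤ ∑ i ∈ s, (a i)^2 := Finset.sum_nonneg fun i _ => sq_nonneg _
        gcongr
      have h10 : (∑ i ∈ s, (a i)^2) * (2*C₂)^2 = 4 * C₂^2 * ∑ i ∈ s, (a i)^2 := by ring
      rw [h10] at h8
      linarith
    set A : ℝ := ∑ i ∈ s, (a i)^2 with hA
    have hA0 : 0 ≤ A := Finset.sum_nonneg fun i _ => sq_nonneg _
    have h7 : A^2 ≤ M * A := by
      calc A^2 ≤ (C₁ * ‖∑ i ∈ s, a i • v i‖)^2 := by gcongr
        _ = C₁^2 * ‖∑ i ∈ s, a i • v i‖^2 := by ring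
        _ ≤ C₁^2 * ((4 * C₂^2 + 1) * A) := by gcongr
        _ = M * A := by rw [hM]; ring
    rcases eq_or_lt_of_le hA0 with h8 | h8
    · rw [← h8]; exact hM0.le
    · rw [sq] at h7
      exact le_of_mul_le_mul_right h7 h8
  have hta : ∀ i ∈ s, ∀ j ∈ s, (t i - t j) - (a i - a j) ≤ 1/4 := by
    intro i _ j _
    have h3 : (t i - t j) - (a i - a j) =
        u (e.symm ((e (X' i)).1 - (e (X' j)).1, 0)) := by
      have h4 : ((e (X' i)).1 - (e (X' j)).1, (0:H)) =
          (e (X' i) - e (X' j)) - (((0:L1), v i) - ((0:L1), v j)) := by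
        apply Prod.ext
        · simp
        · simp [hv]
      rw [h4, map_sub, map_sub, map_sub, map_sub, map_sub, map_sub,
        ContinuousLinearEquiv.symm_apply_apply, ContinuousLinearEquiv.symm_apply_apply]
    rw [h3]
    calc u (e.symm ((e (X' i)).1 - (e (X' j)).1, 0))
        ≤ |u (e.symm ((e (X' i)).1 - (e (X' j)).1, 0))| := le_abs_self _
      _ ≤ ‖e.symm ((e (X' i)).1 - (e (X' j)).1, (0:H))‖ := hut _
      _ ≤ C₁ * ‖((e (X' i)).1 - (e (X' j)).1, (0:H))‖ := h1 _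
      _ = C₁ * ‖(e (X' i)).1 - (e (X' j)).1‖ := by
        rw [Prod.norm_mk, norm_zero, max_eq_left (norm_nonneg _)]
      _ ≤ C₁ * η := by
        gcongr
        exact hIη _ (f i).2 _ (f j).2
      _ = 1/4 := by rw [hη]; field_simp
  have hfin := sign_count s t a c (M := M) (τ := 2 * ε) (by positivity) (by linarith)
    (fun i hi => hu3 i hi) (fun i _ => (hut _).trans (hxs (f i)).1) hta (fun i _ => hcabs i)
    hcsum hasum
  have huz : u z = ∑ i ∈ s, c i * t i := by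
    rw [hz, map_sum]
    refine Finset.sum_congr rfl fun i _ => ?_
    rw [map_smul, smul_eq_mul]
  rw [← huz, hscard] at hfin
  have h3 : 2 * ε * m = 1/4 := by rw [hε]; field_simp; norm_num
  rw [h3] at hfin
  linarith

end Pool.Agent.Helper62.NumIndex
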