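import Mathlib

universe u

namespace Pool.Agent.Helper62.NumIndex

/-- The numerical radius `v(T) = sup {|f(T x)| : ‖x‖ = ‖f‖ = f(x) = 1}` of a bounded linear
operator `T` on `X`, where `x` runs over `X` and `f` over the dual space. -/
noncomputable def numericalRadius {𝕜 : Type*} {X : Type*} [RCLike 𝕜] [NormedAddCommGroup X]
    [NormedSpace 𝕜 X] (T : X →L[𝕜] X) : ℝ :=
  sSup {r : ℝ | ∃ (x : X) (f : StrongDual 𝕜 X), ‖x‖ = 1 ∧ ‖f‖ = 1 ∧ f x = 1 ∧ r = ‖f (T x)‖}

/-- The numerical index `n(X) = inf {v(T) : ‖T‖ = 1}` of a normed space `X` over `𝕜`. -/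
noncomputable def numericalIndex (𝕜 : Type*) (X : Type*) [RCLike 𝕜] [NormedAddCommGroup X]
    [NormedSpace 𝕜 X] : ℝ :=
  sInf {r : ℝ | ∃ T : X →L[𝕜] X, ‖T‖ = 1 ∧ r = numericalRadius T}

/-- The set `N(X)` of the numerical indices of `X` under all its equivalent norms. The space `X`
with an equivalent norm is the same thing as a normed space `Z` linearly homeomorphic to `X`. -/
def indexSet (𝕜 : Type*) (X : Type u) [RCLike 𝕜] [NormedAddCommGroup X] [NormedSpace 𝕜 X] :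
    Set ℝ :=
  {t : ℝ | ∃ (Z : Type u) (_ : NormedAddCommGroup Z) (_ : NormedSpace 𝕜 Z),
    Nonempty (Z ≃L[𝕜] X) ∧ numericalIndex 𝕜 Z = t}

end Pool.Agent.Helper62.NumIndex
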