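import Mathlib
import Pool.Agent.Helper62.NumIndex.Defs
import Pool.Agent.Helper62.NumIndex.Contra

open Set Filter Topology

namespace Pool.Agent.Helper62.NumIndex

section general

variable {X : Type*} [NormedAddCommGroup X] [NormedSpace ℝ X]

theorem numericalRadius_le (T : X →L[ℝ] X) : numericalRadius T ≤ ‖T‖ := by
  apply Real.sSup_le _ (norm_nonneg _)
  rintro r ⟨x, f, hx, hf, _, rfl⟩
  calc ‖f (T x)‖ ≤ ‖f‖ * ‖T x‖ := f.le_opNorm _
    _ ≤ ‖f‖ * (‖T‖ * ‖x‖) := by gcongr; exact T.le_opNorm x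
    _ = ‖T‖ := by rw [hf, hx]; ring

theorem bddAbove_radiusSet (T : X →L[ℝ] X) : BddAbove
    {r : ℝ | ∃ (x : X) (f : StrongDual ℝ X), ‖x‖ = 1 ∧ ‖f‖ = 1 ∧ f x = 1 ∧ r = ‖f (T x)‖} := by
  refine ⟨‖T‖, ?_⟩
  rintro r ⟨x, f, hx, hf, _, rfl⟩
  calc ‖f (T x)‖ ≤ ‖f‖ * ‖T x‖ := f.le_opNorm _
    _ ≤ ‖f‖ * (‖T‖ * ‖x‖) := by gcongr; exact T.le_opNorm x
    _ = ‖T‖ := by rw [hf, hx]; ring

theorem numericalRadius_nonneg (T : X →L[ℝ] X) : 0 ≤ numericalRadius T := by
  apply Real.sSup_nonneg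
  rintro r ⟨x, f, _, _, _, rfl⟩
  exact norm_nonneg _

/-- numerical index one implies the rank-one property -/
theorem rankOneProp_of_index (h : numericalIndex ℝ X = 1) : RankOneProp X := by
  intro g z hg hz η hη
  set T : X →L[ℝ] X := g.smulRight z with hT
  have hT1 : ‖T‖ = 1 := by
    rw [hT, ContinuousLinearMap.norm_smulRight_apply, hg, hz, one_mul]
  have h1 : 1 ≤ numericalRadius T := by
    rw [← h]
    apply csInf_le
    · refine ⟨0, ?_⟩
      rintro r ⟨S, _, rfl⟩
      exact numericalRadius_nonneg S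
    · exact ⟨T, hT1, rfl⟩
  have hlt : 1 - η < numericalRadius T := by linarith
  have hne : {r : ℝ | ∃ (x : X) (f : StrongDual ℝ X),
      ‖x‖ = 1 ∧ ‖f‖ = 1 ∧ f x = 1 ∧ r = ‖f (T x)‖}.Nonempty := by
    obtain ⟨f, hf1, hf2⟩ := exists_dual_vector ℝ z (by rw [hz]; norm_num)
    exact ⟨_, z, f, hz, hf1, by rw [hf2, hz]; rfl, rfl⟩
  obtain ⟨r, ⟨x, f, hx, hf, hfx, rfl⟩, hr⟩ := exists_lt_of_lt_csSup hne hlt
  refine ⟨x, f, hx, hf, hfx, ?_⟩
  have h2 : f (T x) = g x * f z := by
    rw [hT, ContinuousLinearMap.smulRight_apply, map_smul, smul_eq_mul]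
  rw [h2, norm_mul] at hr
  exact hr

end general

section ellOne

/-- the functional on `ℓ₁` given by a sequence of modulus at most one -/
theorem exists_sign_functional (b : ℕ → ℝ) (hb : ∀ k, |b k| ≤ 1) :
    ∃ f : StrongDual ℝ L1, ‖f‖ ≤ 1 ∧ ∀ y : L1, f y = ∑' k, b k * y k := by
  have hsum : ∀ y : L1, Summable fun k => b k * y k := fun y => by
    refine Summable.of_norm_bounded (L1.hasSum_norm y).summable fun k => ?_
    rw [norm_mul, Real.norm_eq_abs, Real.norm_eq_abs]
    calc |b k| * |y k| ≤ 1 * |y k| := by gcongr; exact hb k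
      _ = |y k| := one_mul _
  let f₀ : L1 →ₗ[ℝ] ℝ :=
    { toFun := fun y => ∑' k, b k * y k
      map_add' := fun y z => by
        rw [← (hsum y).tsum_add (hsum z)]
        refine tsum_congr fun k => ?_
        rw [lp.coeFn_add, Pi.add_apply]
        ring
      map_smul' := fun c y => by
        rw [smul_eq_mul, RingHom.id_apply, ← tsum_mul_left]
        refine tsum_congr fun k => ?_
        rw [lp.coeFn_smul, Pi.smul_apply, smul_eq_mul]
        ring }
  refine ⟨f₀.mkContinuous 1 fun y => ?_, LinearMap.mkContinuous_norm_le _ zero_le_one _,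
    fun y => rfl⟩
  rw [one_mul]
  show ‖∑' k, b k * y k‖ ≤ ‖y‖
  refine tsum_of_norm_bounded (L1.hasSum_norm y) fun k => ?_
  rw [norm_mul, Real.norm_eq_abs, Real.norm_eq_abs]
  calc |b k| * |y k| ≤ 1 * |y k| := by gcongr; exact hb k
    _ = |y k| := one_mul _

theorem norm_single_one (k : ℕ) : ‖(lp.single 1 k (1:ℝ) : L1)‖ = 1 := by
  rw [lp.norm_single (by norm_num)]
  simp

theorem norm_apply_single_le (T : L1 →L[ℝ] L1) (k : ℕ) :
    ‖T (lp.single 1 k (1:ℝ))‖ ≤ numericalRadius T := by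
  set y : L1 := T (lp.single 1 k (1:ℝ)) with hy
  obtain ⟨σ, hσ1, hσ⟩ := exists_sign (y k)
  choose sg hsg1 hsg using fun j : ℕ => exists_sign (y j)
  -- `b k = 1`, and `b j` has the sign of `σ y j` otherwise
  let b : ℕ → ℝ := fun j => if j = k then 1 else σ * sg j
  have hb : ∀ j, |b j| ≤ 1 := by
    intro j
    by_cases hj : j = k
    · simp [b, hj]
    · simp only [b, hj, if_false, abs_mul, hσ1, hsg1, mul_one, le_refl]
  obtain ⟨f, hf1, hf⟩ := exists_sign_functional b hb
  have hfk : f (lp.single 1 k (1:ℝ)) = 1 := by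
    rw [hf, tsum_eq_single k]
    · simp [b]
    · intro j hj
      have h0 : (lp.single 1 k (1:ℝ) : L1) j = 0 := by
        rw [lp.single_apply, Pi.single_eq_of_ne hj]
      rw [h0, mul_zero]
  have hfn : ‖f‖ = 1 := by
    apply le_antisymm hf1
    have := f.le_opNorm (lp.single 1 k (1:ℝ))
    rw [hfk, norm_single_one] at this
    simpa using this
  have hσσ : σ * σ = 1 := by rw [← sq, ← sq_abs, hσ1]; norm_num
  have hfy : σ * f y = ‖y‖ := by
    rw [hf, ← tsum_mul_left, ← (L1.hasSum_norm y).tsum_eq]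
    refine tsum_congr fun j => ?_
    by_cases hj : j = k
    · subst hj
      simp only [b, if_true, one_mul]
      exact hσ
    · simp only [b, hj, if_false]
      rw [← hsg j]
      linear_combination (sg j * y j) * hσσ
  have h1 : ‖f y‖ = ‖y‖ := by
    have : |σ * f y| = ‖y‖ := by rw [hfy, abs_of_nonneg (norm_nonneg _)]
    rw [abs_mul, hσ1, one_mul] at this
    exact this
  rw [← h1]
  apply le_csSup (bddAbove_radiusSet T)
  exact ⟨_, f, norm_single_one k, hfn, hfk, rfl⟩

theorem norm_le_numericalRadius (T : L1 →L[ℝ] L1) : ‖T‖ ≤ numericalRadius T := by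
  refine T.opNorm_le_bound (numericalRadius_nonneg T) fun y => ?_
  have h2 : HasSum (fun k : ℕ => (lp.single 1 k (y k) : L1)) y := lp.hasSum_single (by simp) y
  have h3 : HasSum (fun k : ℕ => T (lp.single 1 k (y k) : L1)) (T y) := T.hasSum h2
  rw [← h3.tsum_eq]
  refine tsum_of_norm_bounded ((L1.hasSum_norm y).mul_left (numericalRadius T)) fun k => ?_
  have h4 : (lp.single 1 k (y k) : L1) = (y k) • (lp.single 1 k (1:ℝ) : L1) := by
    rw [← lp.single_smul]; simp
  rw [h4, map_smul, norm_smul, mul_comm, Real.norm_eq_abs]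
  gcongr
  exact norm_apply_single_le T k

theorem numericalIndex_L1 : numericalIndex ℝ L1 = 1 := by
  have h1 : ∀ r ∈ {r : ℝ | ∃ T : L1 →L[ℝ] L1, ‖T‖ = 1 ∧ r = numericalRadius T}, r = 1 := by
    rintro r ⟨T, hT, rfl⟩
    exact le_antisymm ((numericalRadius_le T).trans hT.le)
      (hT.symm.le.trans (norm_le_numericalRadius T))
  have h2 : {r : ℝ | ∃ T : L1 →L[ℝ] L1, ‖T‖ = 1 ∧ r = numericalRadius T} = {1} := by
    apply Set.eq_singleton_iff_unique_mem.2
    refine ⟨?_, h1⟩
    have : Nontrivial L1 := ⟨⟨lp.single 1 0 (1:ℝ), 0, fun h => by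
      have := norm_single_one 0
      rw [h, norm_zero] at this
      norm_num at this⟩⟩
    have h3 : ‖ContinuousLinearMap.id ℝ L1‖ = 1 := ContinuousLinearMap.norm_id
    exact ⟨ContinuousLinearMap.id ℝ L1, h3, (h1 _ ⟨_, h3, rfl⟩).symm⟩
  unfold numericalIndex
  rw [h2, csInf_singleton]

theorem not_finiteDimensional_L1 : ¬ FiniteDimensional ℝ L1 := by
  intro hfin
  have hli : LinearIndependent ℝ (fun k : ℕ => (lp.single 1 k (1:ℝ) : L1)) := by
    rw [linearIndependent_iff']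
    intro s g hg i hi
    have h1 := congrArg (fun y : L1 => (y : ℕ → ℝ) i) hg
    simp only [lp.coeFn_sum, lp.coeFn_smul, Finset.sum_apply, Pi.smul_apply, lp.single_apply,
      lp.coeFn_zero, Pi.zero_apply, smul_eq_mul] at h1
    rw [Finset.sum_eq_single i] at h1
    · simpa using h1
    · intro j _ hj
      simp [Pi.single_eq_of_ne hj.symm]
    · intro h; exact absurd hi h
  exact (Module.Finite.not_linearIndependent_of_infinite _) hli

end ellOne

end Pool.Agent.Helper62.NumIndex
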